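import Pool.Agent.Helper10.AB.GoalsEMB

/-! # Project AB (MP_1ef41b_an), module EMB, packet CPT: the compactness argument -/

open Set Filter Topology
open scoped ContDiff

noncomputable section

namespace Pool.Agent.Helper51.AB

open Pool.Agent.Helper24.AB
open Pool.Agent.Helper10.AB

/-- Normalized points. -/
def Nrm (P : V4) : Prop := ∀ i, 0 ≤ (P i).im ∧ (P i).im < 2 * Real.pi

lemma unb_mono {a b : ℝ} (h : a ≤ b) : Unb a ⊆ Unb b := by
  intro P hP
  exact ⟨lt_of_lt_of_le hP.1 h, lt_of_lt_of_le hP.2.1 h, lt_of_lt_of_le hP.2.2.1 h,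
    lt_of_lt_of_le hP.2.2.2 h⟩

lemma box_of_nrm {P : V4} (h : Nrm P) : Box P := by
  intro i
  have := h i
  have hpi := Real.pi_lt_d2
  constructor <;> linarith

/-- Compactness: from frequently bad pairs to a convergent sequence of bad pairs. -/
lemma pairseq (h2 : S_ACT2) (η : ℕ → ℝ) (hη : Tendsto η atTop (𝓝 0)) (hη1 : ∀ n, η n ≤ 1)
    (prop : ℕ → V4 → V4 → Prop)
    (hf : ∃ᶠ n in atTop, ∃ P P' : V4, P ∈ Unb (η n) ∧ P' ∈ Unb (η n) ∧ Nrm P ∧ Nrm P' ∧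
      prop n P P') :
    ∃ (φ : ℕ → ℕ) (P P' : ℕ → V4) (Q Q' : V4), StrictMono φ ∧
      (∀ k, P k ∈ Unb (η (φ k)) ∧ P' k ∈ Unb (η (φ k)) ∧ Nrm (P k) ∧ Nrm (P' k) ∧
        prop (φ k) (P k) (P' k)) ∧
      Tendsto P atTop (𝓝 Q) ∧ Tendsto P' atTop (𝓝 Q') ∧ Core Q ∧ Core Q' ∧
      (∀ i, 0 ≤ (Q i).im ∧ (Q i).im ≤ 2 * Real.pi) ∧
      (∀ i, 0 ≤ (Q' i).im ∧ (Q' i).im ≤ 2 * Real.pi) := by
  obtain ⟨C, hC, hre⟩ := h2.2.2.2.2.1
  obtain ⟨φ, hφ, hbad⟩ := extraction_of_frequently_atTop hf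
  choose P P' hP using hbad
  have hb : ∀ (X : ℕ → V4), (∀ k, X k ∈ Unb (η (φ k)) ∧ Nrm (X k)) →
      ∀ k, ‖X k‖ ≤ C + 7 := by
    intro X hX k
    rw [pi_norm_le_iff_of_nonneg (by positivity)]
    intro i
    have h1 := hre _ _ (hX k).1 (box_of_nrm (hX k).2) i
    have h3 := (hX k).2 i
    have h4 : |((X k) i).re| ≤ C := by
      refine h1.trans ?_
      have := mul_le_mul_of_nonneg_left (hη1 (φ k)) hC.le
      linarith
    have h5 : |((X k) i).im| ≤ 7 := by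
      rw [abs_of_nonneg h3.1]
      have := Real.pi_lt_d2
      linarith [h3.2]
    exact (Complex.norm_le_abs_re_add_abs_im _).trans (add_le_add h4 h5)
  have hbd : ∀ k, (P k, P' k) ∈ Metric.closedBall (0 : V4 × V4) (C + 7) := by
    intro k
    rw [mem_closedBall_zero_iff, Prod.norm_def]
    exact max_le (hb P (fun k => ⟨(hP k).1, (hP k).2.2.1⟩) k)
      (hb P' (fun k => ⟨(hP k).2.1, (hP k).2.2.2.1⟩) k)
  obtain ⟨QQ, -, ψ, hψ, hlim⟩ := tendsto_subseq_of_bounded Metric.isBounded_closedBall hbd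
  have hl1 : Tendsto (fun k => P (ψ k)) atTop (𝓝 QQ.1) :=
    (continuous_fst.tendsto QQ).comp hlim
  have hl2 : Tendsto (fun k => P' (ψ k)) atTop (𝓝 QQ.2) :=
    (continuous_snd.tendsto QQ).comp hlim
  have hηψ : Tendsto (fun k => C * η (φ (ψ k))) atTop (𝓝 0) := by
    have := (hη.comp (hφ.comp hψ).tendsto_atTop).const_mul C
    simpa using this
  have hcore : ∀ (X : ℕ → V4) (Q : V4), (∀ k, X k ∈ Unb (η (φ k)) ∧ Nrm (X k)) →
      Tendsto (fun k => X (ψ k)) atTop (𝓝 Q) →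
      Core Q ∧ ∀ i, 0 ≤ (Q i).im ∧ (Q i).im ≤ 2 * Real.pi := by
    intro X Q hX hlim
    have hc : ∀ i, Tendsto (fun k => X (ψ k) i) atTop (𝓝 (Q i)) := fun i =>
      ((continuous_apply i).tendsto Q).comp hlim
    refine ⟨fun i => ?_, fun i => ?_⟩
    · have h1 : Tendsto (fun k => |(X (ψ k) i).re|) atTop (𝓝 |(Q i).re|) :=
        ((Complex.continuous_re.tendsto _).comp (hc i)).abs
      have h3 : |(Q i).re| ≤ 0 := le_of_tendsto_of_tendsto' h1 hηψ
        (fun k => hre _ _ (hX (ψ k)).1 (box_of_nrm (hX (ψ k)).2) i)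
      exact abs_eq_zero.mp (le_antisymm h3 (abs_nonneg _))
    · have h1 : Tendsto (fun k => (X (ψ k) i).im) atTop (𝓝 (Q i).im) :=
        (Complex.continuous_im.tendsto _).comp (hc i)
      exact ⟨ge_of_tendsto' h1 (fun k => ((hX (ψ k)).2 i).1),
        le_of_tendsto' h1 (fun k => ((hX (ψ k)).2 i).2.le)⟩
  have c1 := hcore P QQ.1 (fun k => ⟨(hP k).1, (hP k).2.2.1⟩) hl1
  have c2 := hcore P' QQ.2 (fun k => ⟨(hP k).2.1, (hP k).2.2.2.1⟩) hl2
  exact ⟨fun k => φ (ψ k), fun k => P (ψ k), fun k => P' (ψ k), QQ.1, QQ.2, hφ.comp hψ,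
    fun k => hP (ψ k), hl1, hl2, c1.1, c2.1, c1.2, c2.2⟩

/-- An injective continuous linear map of `V4` is bounded below. -/
lemma lower_bound (L : V4 →L[ℂ] V4) (h : ∀ v, L v = 0 → v = 0) :
    ∃ c : ℝ, 0 < c ∧ ∀ v, c * ‖v‖ ≤ ‖L v‖ := by
  have hker : LinearMap.ker (L : V4 →ₗ[ℂ] V4) = ⊥ := by
    rw [LinearMap.ker_eq_bot']
    exact fun v hv => h v hv
  obtain ⟨K, hK, hanti⟩ := LinearMap.exists_antilipschitzWith (L : V4 →ₗ[ℂ] V4) hker
  have hK' : (0 : ℝ) < K := hK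
  refine ⟨(K : ℝ)⁻¹, inv_pos.mpr hK', fun v => ?_⟩
  have h1 := hanti.le_mul_dist v 0
  have h2 : ‖v‖ ≤ K * ‖L v‖ := by
    have h3 : dist ((L : V4 →ₗ[ℂ] V4) v) ((L : V4 →ₗ[ℂ] V4) 0) = ‖L v‖ := by
      rw [map_zero, dist_zero_right]; rfl
    rw [h3, dist_zero_right] at h1
    exact h1
  rw [inv_mul_le_iff₀ hK']
  exact h2

/-- A map invariant under `gE` and the `tE k` is invariant under the group. -/
lemma inv_all {F : V4 → V4} (hF : ∀ P, F (gE P) = F P ∧ ∀ k, F (tE k P) = F P)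
    (k : ℤ) (m : Fin 3 → ℤ) (P : V4) : F (tE m ((gE ^ k) P)) = F P := by
  rw [(hF _).2 m]
  induction k using Int.induction_on with
  | zero => simp
  | succ i ih =>
    have : (gE ^ ((i : ℤ) + 1)) P = gE ((gE ^ (i : ℤ)) P) := by
      rw [add_comm, zpow_add, zpow_one, Equiv.Perm.mul_apply]
    rw [this, (hF _).1, ih]
  | pred i ih =>
    have : gE ((gE ^ (-(i : ℤ) - 1)) P) = (gE ^ (-(i : ℤ))) P := by
      have h : (gE ^ (-(i : ℤ))) = gE * gE ^ (-(i : ℤ) - 1) := by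
        rw [← zpow_one_add]; congr 1; ring
      rw [h, Equiv.Perm.mul_apply]
    rw [← (hF _).1, this, ih]

lemma unb_inv (h2 : S_ACT2) (η : ℝ) (k : ℤ) (m : Fin 3 → ℤ) (P : V4) :
    tE m ((gE ^ k) P) ∈ Unb η ↔ P ∈ Unb η := by
  rw [h2.2.1]
  induction k using Int.induction_on with
  | zero => simp
  | succ i ih =>
    have : (gE ^ ((i : ℤ) + 1)) P = gE ((gE ^ (i : ℤ)) P) := by
      rw [add_comm, zpow_add, zpow_one, Equiv.Perm.mul_apply]
    rw [this, h2.1, ih]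
  | pred i ih =>
    have : gE ((gE ^ (-(i : ℤ) - 1)) P) = (gE ^ (-(i : ℤ))) P := by
      have h : (gE ^ (-(i : ℤ))) = gE * gE ^ (-(i : ℤ) - 1) := by
        rw [← zpow_one_add]; congr 1; ring
      rw [h, Equiv.Perm.mul_apply]
    rw [← h2.1, this, ih]

/-- The group element as an affine map. -/
lemma act_affine (h1 : S_ACT1) (k : ℤ) (m : Fin 3 → ℤ) :
    ∃ c : V4, ∀ P, tE m ((gE ^ k) P) = gk k P + c := by
  refine ⟨fun i => (if i = 3 then 2 * Real.pi * Complex.I * k else 0) +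
    (![2 * Real.pi * Complex.I * m 0, 2 * Real.pi * Complex.I * m 1,
      2 * Real.pi * Complex.I * m 2, 0] : V4) i, fun P => ?_⟩
  rw [h1.1 k P]
  funext i
  fin_cases i <;> simp [tE]

lemma gk_inj (k : ℤ) {v : V4} (hv : gk k v = 0) : v = 0 := by
  have : (gL ^ k : V4 ≃L[ℂ] V4) v = 0 := hv
  exact (ContinuousLinearEquiv.map_eq_zero_iff _).mp this

theorem cpt : S_ACT1 → S_ACT2 → S_CPT := by
  intro h1 h2 Θ₀ L₀ Θ δ hΘ₀ hL₀ hδ hdiff hinv hnear hinj himm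
  have hgam := h1.2.2.2.2
  have hrefl := h1.2.2.2.2.2.1
  have hsymm := h1.2.2.2.2.2.2.1
  have htrans := h1.2.2.2.2.2.2.2.1
  have hnorm := h1.2.2.2.2.2.2.2.2.1
  set η : ℕ → ℝ := fun n => min (δ n / 2) (1 / ((n : ℝ) + 1)) with hηdef
  have hηpos : ∀ n, 0 < η n := fun n => lt_min (half_pos (hδ n)) (by positivity)
  have hηδ : ∀ n, 2 * η n ≤ δ n := fun n => by
    have := min_le_left (δ n / 2) (1 / ((n : ℝ) + 1))
    simp only [hηdef]; linarith
  have hηδ' : ∀ n, η n ≤ δ n := fun n => by linarith [hηδ n, hηpos n]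
  have hη1 : ∀ n, η n ≤ 1 := fun n => by
    refine (min_le_right _ _).trans ?_
    rw [div_le_one (by positivity)]
    linarith [(Nat.cast_nonneg n : (0 : ℝ) ≤ n)]
  have hη0 : Tendsto η atTop (𝓝 0) :=
    squeeze_zero (fun n => (hηpos n).le) (fun n => min_le_right _ _)
      tendsto_one_div_add_atTop_nhds_zero_nat
  have hone : ∀ φ : ℕ → ℕ, StrictMono φ →
      Tendsto (fun k => 1 / ((φ k : ℝ) + 1)) atTop (𝓝 0) := fun φ hφ =>
    tendsto_one_div_add_atTop_nhds_zero_nat.comp hφ.tendsto_atTop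
  -- (A)
  have hA : ∀ᶠ n in atTop, ∀ P ∈ Unb (η n), Nrm P → ∀ v, fderiv ℂ (Θ n) P v = 0 → v = 0 := by
    by_contra hcon
    rw [not_eventually] at hcon
    have hcon' : ∃ᶠ n in atTop, ∃ P P' : V4, P ∈ Unb (η n) ∧ P' ∈ Unb (η n) ∧ Nrm P ∧ Nrm P' ∧
        (∃ v, v ≠ 0 ∧ fderiv ℂ (Θ n) P v = 0) := by
      refine hcon.mono fun n hn => ?_
      push Not at hn
      obtain ⟨P, hP, hN, v, hv, hv0⟩ := hn
      exact ⟨P, P, hP, hP, hN, hN, v, hv0, hv⟩
    obtain ⟨φ, P, P', Q, Q', hφ, hbad, hl, -, hc, -, him, -⟩ :=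
      pairseq h2 η hη0 hη1 (fun n P _ => ∃ v, v ≠ 0 ∧ fderiv ℂ (Θ n) P v = 0) hcon'
    obtain ⟨c, hc0, hlow⟩ := lower_bound (L₀ Q) (himm Q hc (him 3).1 (him 3).2)
    have hlim : Tendsto (fun k => 1 / ((φ k : ℝ) + 1) + ‖L₀ (P k) - L₀ Q‖) atTop (𝓝 0) := by
      have h3 : Tendsto (fun k => ‖L₀ (P k) - L₀ Q‖) atTop (𝓝 0) :=
        tendsto_iff_norm_sub_tendsto_zero.mp ((hL₀.tendsto Q).comp hl)
      simpa using (hone φ hφ).add h3
    obtain ⟨k, hk⟩ := (hlim.eventually (gt_mem_nhds hc0)).exists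
    obtain ⟨hPk, -, hNk, -, v, hv0, hv⟩ := hbad k
    have h4 := (hnear (φ k) (P k) (unb_mono (hηδ' _) hPk) (box_of_nrm hNk)).2
    have h5 : ‖L₀ Q - fderiv ℂ (Θ (φ k)) (P k)‖ < c := by
      have : L₀ Q - fderiv ℂ (Θ (φ k)) (P k) =
          -((fderiv ℂ (Θ (φ k)) (P k) - L₀ (P k)) + (L₀ (P k) - L₀ Q)) := by abel
      rw [this, norm_neg]
      exact (norm_add_le _ _).trans_lt (by linarith)
    have h6 : ‖L₀ Q v‖ ≤ ‖L₀ Q - fderiv ℂ (Θ (φ k)) (P k)‖ * ‖v‖ := by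
      have : L₀ Q v = (L₀ Q - fderiv ℂ (Θ (φ k)) (P k)) v := by
        rw [ContinuousLinearMap.sub_apply, hv, sub_zero]
      rw [this]
      exact ContinuousLinearMap.le_opNorm _ _
    have h7 := hlow v
    have hvpos : 0 < ‖v‖ := norm_pos_iff.mpr hv0
    nlinarith
  -- (B)
  have hB : ∀ᶠ n in atTop, ∀ P ∈ Unb (η n), ∀ P' ∈ Unb (η n), Nrm P → Nrm P' →
      Θ n P = Θ n P' → GamRel P P' := by
    by_contra hcon
    rw [not_eventually] at hcon
    have hcon' : ∃ᶠ n in atTop, ∃ P P' : V4, P ∈ Unb (η n) ∧ P' ∈ Unb (η n) ∧ Nrm P ∧ Nrm P' ∧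
        (Θ n P = Θ n P' ∧ ¬ GamRel P P') := by
      refine hcon.mono fun n hn => ?_
      push Not at hn
      obtain ⟨P, hP, P', hP', hN, hN', he, hg⟩ := hn
      exact ⟨P, P', hP, hP', hN, hN', he, hg⟩
    obtain ⟨φ, P, P', Q, Q', hφ, hbad, hl, hl', hc, hc', him, him'⟩ :=
      pairseq h2 η hη0 hη1 (fun n P P' => Θ n P = Θ n P' ∧ ¬ GamRel P P') hcon'
    -- the limits have the same image
    have himg : ∀ (X : ℕ → V4) (Y : V4), (∀ k, X k ∈ Unb (η (φ k)) ∧ Nrm (X k)) →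
        Tendsto X atTop (𝓝 Y) → Tendsto (fun k => Θ (φ k) (X k)) atTop (𝓝 (Θ₀ Y)) := by
      intro X Y hX hXY
      have h3 : Tendsto (fun k => Θ (φ k) (X k) - Θ₀ (X k)) atTop (𝓝 0) := by
        apply squeeze_zero_norm _ (hone φ hφ)
        intro k
        exact (hnear (φ k) (X k) (unb_mono (hηδ' _) (hX k).1) (box_of_nrm (hX k).2)).1
      have h4 := h3.add ((hΘ₀.tendsto Y).comp hXY)
      simpa using h4
    have e1 := himg P Q (fun k => ⟨(hbad k).1, (hbad k).2.2.1⟩) hl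
    have e2 := himg P' Q' (fun k => ⟨(hbad k).2.1, (hbad k).2.2.2.1⟩) hl'
    have e3 : Θ₀ Q = Θ₀ Q' := by
      have : (fun k => Θ (φ k) (P k)) = fun k => Θ (φ k) (P' k) :=
        funext fun k => (hbad k).2.2.2.2.1
      rw [this] at e1
      exact tendsto_nhds_unique e1 e2
    obtain ⟨j, m, hQ'⟩ := hinj Q Q' hc hc' (him 3).1 (him 3).2 (him' 3).1 (him' 3).2 e3
    obtain ⟨c₁, hγ⟩ := act_affine h1 j m
    set R : ℕ → V4 := fun k => tE m ((gE ^ j) (P k)) with hR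
    have hRl : Tendsto R atTop (𝓝 Q') := by
      have h3 : Tendsto (fun k => gk j (P k) + c₁) atTop (𝓝 (gk j Q + c₁)) :=
        (((gk j).continuous.tendsto Q).comp hl).add_const c₁
      have h4 : R = fun k => gk j (P k) + c₁ := funext fun k => hγ (P k)
      rw [h4, hQ', hγ]
      exact h3
    obtain ⟨c, hc0, hlow⟩ := lower_bound (L₀ Q') (himm Q' hc' (him' 3).1 (him' 3).2)
    -- a ball where `L₀` is close to `L₀ Q'`
    obtain ⟨r, hr0, hr⟩ := Metric.continuousAt_iff.mp (hL₀.continuousAt (x := Q')) (c / 4)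
      (by positivity)
    set ρ : ℝ := min r (1 / 2) with hρ
    have hρ0 : 0 < ρ := lt_min hr0 (by norm_num)
    have hev1 : ∀ᶠ k in atTop, R k ∈ Metric.ball Q' ρ := hRl (Metric.ball_mem_nhds _ hρ0)
    have hev2 : ∀ᶠ k in atTop, P' k ∈ Metric.ball Q' ρ := hl' (Metric.ball_mem_nhds _ hρ0)
    have hev3 : ∀ᶠ k in atTop, 1 / ((φ k : ℝ) + 1) < c / 4 :=
      (hone φ hφ).eventually (gt_mem_nhds (by positivity))
    obtain ⟨k, hk1, hk2, hk3⟩ := (hev1.and (hev2.and hev3)).exists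
    obtain ⟨hPk, hPk', hNk, hNk', hek, hgk⟩ := hbad k
    have hRU : R k ∈ Unb (η (φ k)) := (unb_inv h2 _ _ _ _).mpr hPk
    have hRe : Θ (φ k) (R k) = Θ (φ k) (P' k) := by
      rw [hR]; simp only
      rw [inv_all (hinv (φ k))]; exact hek
    have hRne : P' k - R k ≠ 0 := by
      intro h0
      apply hgk
      exact ⟨j, m, sub_eq_zero.mp h0⟩
    have hcoord : ∀ X ∈ Metric.ball Q' ρ, ∀ i, |(X i).im - (Q' i).im| < 1 / 2 := by
      intro X hX i
      have h3 : ‖X - Q'‖ < ρ := by rwa [Metric.mem_ball, dist_eq_norm] at hX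
      have h4 : ‖(X - Q') i‖ ≤ ‖X - Q'‖ := norm_le_pi_norm _ i
      have h5 : |((X - Q') i).im| ≤ ‖(X - Q') i‖ := Complex.abs_im_le_norm _
      have h6 : ((X - Q') i).im = (X i).im - (Q' i).im := by simp
      rw [h6] at h5
      exact (h5.trans h4).trans_lt (h3.trans_le (min_le_right _ _))
    have hseg : segment ℝ (R k) (P' k) ⊆ Unb (2 * η (φ k)) := by
      apply h2.2.2.2.2.2 _ _ _ hRU hPk'
      have h3 := abs_lt.mp (hcoord _ hk1 3)
      have h4 := abs_lt.mp (hcoord _ hk2 3)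
      rw [abs_le]
      constructor <;> linarith [h3.1, h3.2, h4.1, h4.2]
    have hsegball : segment ℝ (R k) (P' k) ⊆ Metric.ball Q' ρ :=
      (convex_ball Q' ρ).segment_subset hk1 hk2
    have hmv := Convex.norm_image_sub_le_of_norm_fderiv_le' (𝕜 := ℂ) (f := Θ (φ k))
      (φ := L₀ Q') (C := c / 2) (s := segment ℝ (R k) (P' k)) (x := R k) (y := P' k)
      (fun X hX => hdiff _ X (unb_mono (hηδ _) (hseg hX)))
      (fun X hX => by
        have hXb := hsegball hX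
        have hbox : Box X := by
          intro i
          have h3 := abs_lt.mp (hcoord X hXb i)
          have h4 := him' i
          have hpi := Real.pi_lt_d2
          constructor <;> linarith [h3.1, h3.2, h4.1, h4.2]
        have h3 := (hnear (φ k) X (unb_mono (hηδ _) (hseg hX)) hbox).2
        have h4 : ‖L₀ X - L₀ Q'‖ < c / 4 := by
          rw [← dist_eq_norm]
          exact hr (lt_of_lt_of_le (Metric.mem_ball.mp hXb) (min_le_left _ _))
        have h5 : fderiv ℂ (Θ (φ k)) X - L₀ Q' =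
            (fderiv ℂ (Θ (φ k)) X - L₀ X) + (L₀ X - L₀ Q') := by abel
        rw [h5]
        exact (norm_add_le _ _).trans (by linarith))
      (convex_segment _ _) (left_mem_segment ℝ _ _) (right_mem_segment ℝ _ _)
    rw [hRe, sub_self, zero_sub, norm_neg] at hmv
    have h7 := hlow (P' k - R k)
    have hvpos : 0 < ‖P' k - R k‖ := norm_pos_iff.mpr hRne
    nlinarith
  -- (C)
  obtain ⟨n, hAn, hBn⟩ := (hA.and hB).exists
  refine ⟨n, η n, hηpos n, ?_, ?_, ?_, ?_, ?_⟩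
  · exact fun P hP => (hdiff n P (unb_mono (hηδ' n) hP)).differentiableWithinAt
  · exact fun P _ => (hinv n P).1
  · exact fun P _ k => (hinv n P).2 k
  · intro P hP P' hP' he
    obtain ⟨k, m, hN⟩ := hnorm P
    obtain ⟨k', m', hN'⟩ := hnorm P'
    have hg := hBn _ ((unb_inv h2 _ k m P).mpr hP) _ ((unb_inv h2 _ k' m' P').mpr hP') hN hN'
      (by rw [inv_all (hinv n), inv_all (hinv n)]; exact he)
    have g1 : GamRel P (tE m ((gE ^ k) P)) := ⟨k, m, rfl⟩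
    have g2 : GamRel P' (tE m' ((gE ^ k') P')) := ⟨k', m', rfl⟩
    exact htrans _ _ _ (htrans _ _ _ g1 hg) (hsymm _ _ g2)
  · intro P hP
    obtain ⟨k, m, hN⟩ := hnorm P
    obtain ⟨c₁, hγ⟩ := act_affine h1 k m
    set γP : V4 := tE m ((gE ^ k) P) with hγP
    have hγU : γP ∈ Unb (η n) := (unb_inv h2 _ k m P).mpr hP
    have hd1 : HasFDerivAt (Θ n) (fderiv ℂ (Θ n) γP) γP :=
      (hdiff n γP (unb_mono (hηδ' n) hγU)).hasFDerivAt
    have hd2 : HasFDerivAt (fun X => gk k X + c₁) (gk k) P :=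
      (gk k).hasFDerivAt.add_const c₁
    have hd3 : HasFDerivAt (fun X => Θ n (gk k X + c₁)) ((fderiv ℂ (Θ n) γP).comp (gk k)) P := by
      have h3 : γP = gk k P + c₁ := hγ P
      rw [h3] at hd1 ⊢
      exact hd1.comp P hd2
    have hd4 : (fun X => Θ n (gk k X + c₁)) = Θ n := by
      funext X
      rw [← hγ X, inv_all (hinv n)]
    rw [hd4] at hd3
    rw [hd3.fderiv]
    have hinjL : ∀ v, ((fderiv ℂ (Θ n) γP).comp (gk k)) v = 0 → v = 0 := by
      intro v hv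
      exact gk_inj k (hAn γP hγU hN _ hv)
    intro hdet
    have hker : LinearMap.ker (((fderiv ℂ (Θ n) γP).comp (gk k) : V4 →L[ℂ] V4) : V4 →ₗ[ℂ] V4) = ⊥ := by
      rw [LinearMap.ker_eq_bot']
      exact fun v hv => hinjL v hv
    have hdet' : LinearMap.det (((fderiv ℂ (Θ n) γP).comp (gk k) : V4 →L[ℂ] V4) : V4 →ₗ[ℂ] V4) = 0 :=
      hdet
    have := LinearMap.bot_lt_ker_of_det_eq_zero hdet'
    rw [hker] at this
    exact lt_irrefl _ this

end Pool.Agent.Helper51.AB
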