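import Pool.Agent.Helper95.AB.GoalsW

/-! # Project AB, packet SZ: sizes on a good sheet -/

open MeasureTheory Set Filter Topology

noncomputable section

namespace Pool.Agent.Helper51.AB

open Pool.Agent.Helper24.AB
open Pool.Agent.Helper95.AB

lemma lam_bounds : 2 < lam ∧ lam < 27 / 10 := by
  have h1 : Real.sqrt 5 < 24 / 10 := by
    rw [Real.sqrt_lt' (by norm_num)]
    norm_num
  have h2 : 2 < Real.sqrt 5 := by
    rw [Real.lt_sqrt (by norm_num)]
    norm_num
  unfold lam
  constructor <;> linarith

lemma kap_bounds : 0 < kap ∧ kap < 1 / 3 := by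
  obtain ⟨h1, h2⟩ := lam_bounds
  have h3 : Real.log lam ≤ lam - 1 := Real.log_le_sub_one_of_pos (by linarith)
  have hpi := Real.pi_gt_three
  unfold kap
  constructor
  · exact div_pos (Real.log_pos (by linarith)) (by linarith)
  · rw [div_lt_iff₀ (by linarith)]
    linarith

lemma exp_kap (k : ℤ) : Real.exp (kap * (2 * Real.pi * k)) = lam ^ k := by
  have h0 : 0 < lam := by linarith [lam_bounds.1]
  have hpi := Real.pi_pos
  have h1 : kap * (2 * Real.pi * k) = Real.log lam * k := by
    unfold kap
    field_simp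
  rw [h1, ← Real.rpow_def_of_pos h0, Real.rpow_intCast]

theorem sz : S_SZ := by
  obtain ⟨hk0, hk1⟩ := kap_bounds
  refine ⟨exp_kap, ?_, ?_⟩
  · intro J hJ t t' htt
    unfold uF uf
    have h1 : Real.exp (kap * t) ≤ 2 * Real.exp (kap * t') := by
      have h2 : (2 : ℝ) = Real.exp (Real.log 2) := (Real.exp_log (by norm_num)).symm
      rw [h2, ← Real.exp_add]
      apply Real.exp_le_exp.mpr
      have h3 := Real.log_two_gt_d9
      have h4 := (abs_le.mp htt).2
      nlinarith
    calc alp J * Real.exp (kap * t) ≤ alp J * (2 * Real.exp (kap * t')) :=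
          mul_le_mul_of_nonneg_left h1 hJ.le
      _ = 2 * (alp J * Real.exp (kap * t')) := by ring
  · intro L B J j k t hL hGS ht
    have hpos := hGS.pos
    have hsize := hGS.size
    have hu : alp J * lam ^ k ≤ uF J t := by
      unfold uF uf
      rw [← exp_kap]
      apply mul_le_mul_of_nonneg_left _ hpos.le
      exact Real.exp_le_exp.mpr (mul_le_mul_of_nonneg_left ht hk0.le)
    have hv : vF J t ^ 2 ≤ (alp' J * lam ^ (-k)) ^ 2 := by
      unfold vF vf
      rw [mul_pow, mul_pow]
      apply mul_le_mul_of_nonneg_left _ (sq_nonneg _)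
      apply pow_le_pow_left₀ (Real.exp_pos _).le
      rw [← exp_kap]
      apply Real.exp_le_exp.mpr
      push_cast
      nlinarith [mul_le_mul_of_nonneg_left ht hk0.le]
    have hg : gF J t = vF J t ^ 2 + (J 2 : ℝ) ^ 2 := rfl
    have hg0 : 0 ≤ gF J t := by rw [hg]; positivity
    have h1 : L * (1 + gF J t) ≤ uF J t := by
      refine le_trans ?_ hu
      refine le_trans ?_ hsize
      apply mul_le_mul_of_nonneg_left _ (by linarith)
      rw [hg]
      linarith
    have h2 : L ≤ uF J t := by
      refine le_trans ?_ h1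
      nlinarith
    refine ⟨h1, h2, ?_, ?_⟩
    · have h3 : WF J t = 2 + |uF J t| + |vF J t| + |(J 2 : ℝ)| := rfl
      rw [h3]
      have := le_abs_self (uF J t)
      have := abs_nonneg (vF J t)
      have := abs_nonneg (J 2 : ℝ)
      linarith
    · have h3 : vF J t ^ 2 ≤ gF J t := by
        rw [hg]
        have := sq_nonneg (J 2 : ℝ)
        linarith
      nlinarith

end Pool.Agent.Helper51.AB
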